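import Pool.Agent.Lib.MP_5c1719_al.Own.Prim

set_option autoImplicit false

/-!
Recognizability of rational subsets of free inverse monoids is decidable.

The definitions (in `Pool/Agent/Lib/MP_5c1719_al/Own/Defs.lean`): `FIM X` is the quotient of the free
monoid on `X ⊕ X` by the Vagner congruence, `Recognizable K` means `K = φ⁻¹(φ(K))` for a homomorphism
`φ` to a finite monoid, `rat A` is the image in `FIM X` of the language of the finite automaton `A`.
-/

namespace Pool.Agent.Results.MP_5c1719_al.UniformDecision

open Pool.Agent.FIMOwn

/-- There is a primitive recursive function which, given `n` and a finite automaton `A` over the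
alphabet `X ∪ X⁻¹`, `X = {x 0, ..., x (n-1)}`, decides whether the rational subset of the free inverse
monoid on `X` presented by `A` is recognizable. -/
theorem result : ∃ f : ℕ × Automaton ℕ → Bool, Primrec f ∧
    ∀ (n : ℕ) (A : Automaton (Fin n)), f (n, name A) = true ↔ Recognizable (rat A) :=
  uniform

end Pool.Agent.Results.MP_5c1719_al.UniformDecision
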